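import Pool.Agent.Q111.WR.Num

/-! # Project WR of helper200: job LEAF -/

set_option autoImplicit false

namespace Pool.Agent.Q111.WR

open Finset Pool.Agent.TH176.Nag Pool.Agent.TH603.Sur Pool.Agent.TH2.NU Pool.Agent.TH641.UM
open Pool.Agent.H200W Pool.Agent.Y205.FW Pool.Agent.Y205.MD

theorem cond_vec (M : Multiset ℕ) : TH603.Sur.cond (vec M) = TH2.NU.condM M := by
  unfold TH603.Sur.cond TH2.NU.condM
  exact sum_vec M (fun t => (t + 1).choose 2)

theorem crkM_zero {S : Finset (ℤ × ℤ)} {M : Multiset ℕ} (h : EmpM M (↑S : Set (ℤ × ℤ))) :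
    crkM S M = 0 := crk_zero_of_Emp h

theorem crkM_sur {S : Finset (ℤ × ℤ)} {M : Multiset ℕ} (h : SurM M (↑S : Set (ℤ × ℤ))) :
    crkM S M + TH2.NU.condM M ≤ S.card := by
  rw [← cond_vec]
  exact crk_of_Sur h

theorem crkM_mono {S S' : Finset (ℤ × ℤ)} (hS : S ⊆ S') (M : Multiset ℕ) :
    crkM S M ≤ crkM S' M := by
  classical
  unfold crkM
  obtain ⟨T, h1, h2, h3⟩ := crk_spec S' (vec M)
  have h4 : (T ∩ S).card + (S.card - (T ∩ S).card) = S.card :=
    Nat.add_sub_of_le (card_le_card inter_subset_right)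
  have h5 : crk S (vec M) ≤ S.card - (T ∩ S).card :=
    crk_le ⟨T ∩ S, inter_subset_right, h4, h3.mono (by
      exact_mod_cast (inter_subset_left : T ∩ S ⊆ T))⟩
  have h6 : (S \ T).card ≤ (S' \ T).card := card_le_card (sdiff_subset_sdiff hS (Subset.refl T))
  have h7 : (S \ T).card = S.card - (T ∩ S).card := by rw [card_sdiff]
  have h8 : (S' \ T).card + T.card = S'.card := card_sdiff_add_card_eq_card h1
  omega

theorem HX_mono {M1 M2 M3 d d' : ℕ} (h : d ≤ d') : HX M1 M2 M3 d ⊆ HX M1 M2 M3 d' := by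
  intro p hp
  unfold HX at hp ⊢
  rw [mem_filter, mem_product, mem_Icc, mem_Icc] at hp ⊢
  have : (d : ℤ) ≤ d' := by exact_mod_cast h
  obtain ⟨⟨⟨h1, h2⟩, h3, h4⟩, h5, h6⟩ := hp
  exact ⟨⟨⟨h1, by linarith⟩, h3, by linarith⟩, by linarith, h6⟩

theorem card_real (hC : S_CardHX) {M1 M2 M3 n : ℕ} (h32 : M3 ≤ M2) (h21 : M2 ≤ M1)
    (hn : M1 + M2 + M3 ≤ n) : 2 * ((HX M1 M2 M3 n).card : ℝ) =
      ((n : ℝ) + 1) * (n + 2) - ((M1 : ℝ) * (M1 + 1) + M2 * (M2 + 1) + M3 * (M3 + 1)) := by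
  have h := hC h32 h21 hn
  have h' : ((2 * (HX M1 M2 M3 n).card + (M1 * (M1 + 1) + M2 * (M2 + 1) + M3 * (M3 + 1)) : ℕ) : ℝ)
      = (((n + 1) * (n + 2) : ℕ) : ℝ) := by rw [h]
  push_cast at h'
  linarith

theorem card_lower (hC : S_CardHX) {M1 M2 M3 n : ℕ} (h32 : M3 ≤ M2) (h21 : M2 ≤ M1)
    (hn : M1 + M2 + M3 ≤ n) : (n : ℝ) * ((n : ℝ) - M1) ≤ 2 * ((HX M1 M2 M3 n).card : ℝ) := by
  rw [card_real hC h32 h21 hn]
  have a1 : (M3 : ℝ) ≤ M2 := by exact_mod_cast h32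
  have a2 : (M2 : ℝ) ≤ M1 := by exact_mod_cast h21
  have a3 : (M1 : ℝ) + M2 + M3 ≤ n := by exact_mod_cast hn
  have b1 : (0 : ℝ) ≤ M1 := by positivity
  have b2 : (0 : ℝ) ≤ M2 := by positivity
  have b3 : (0 : ℝ) ≤ M3 := by positivity
  nlinarith [mul_nonneg b2 (sub_nonneg.mpr a2), mul_nonneg b3 (sub_nonneg.mpr (a1.trans a2)),
    mul_nonneg b1 (sub_nonneg.mpr a3)]

theorem leafC : S_Leaf := by
  intro hU hW hC h d M1 M2 M3 V N a R hh h32 h21 hd hdM hV hR hbig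
  obtain ⟨L, hL, hsum, hS, hE⟩ := hU V N a R (by linarith) hV hR hbig
  set M := lf V N a R with hM
  have hsum' : (L.map fun x => x.1).sum = M := hsum
  set A : ℝ := 2 * (TH2.NU.condM M : ℝ) with hA
  set Z : ℝ := E0 V N a R with hZ
  have hZ0 : 0 ≤ Z := by
    rw [hZ]; unfold E0
    have : 0 ≤ (R.map fun x => (x.1 : ℝ) * ((x.2 : ℝ) + 1)).sum := List.sum_nonneg (by
      intro y hy
      obtain ⟨x, _, rfl⟩ := List.mem_map.mp hy
      positivity)
    have h2 : 0 ≤ ∑ v ∈ V, (N v : ℝ) * ((a v : ℝ) + 1) :=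
      Finset.sum_nonneg fun v _ => by positivity
    linarith
  have hAeq : A = ∑ v ∈ V, (N v : ℝ) * (a v * ((a v : ℝ) + 1)) +
      (R.map fun x => (x.1 : ℝ) * (x.2 * ((x.2 : ℝ) + 1))).sum := by
    rw [hA, hM, condM_lf, Nat.cast_add, list_cast, Nat.cast_sum, mul_add, Finset.mul_sum,
      ← list_mul]
    congr 1
    · refine Finset.sum_congr rfl fun v _ => ?_
      rw [Nat.cast_mul, choose_real]; ring
    · refine congrArg List.sum (List.map_congr_left fun x _ => ?_)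
      rw [Nat.cast_mul, choose_real]; ring
  have list_add : ∀ (f g : ℕ × ℕ → ℝ), (R.map fun x => f x + g x).sum =
      (R.map f).sum + (R.map g).sum := by
    intro f g
    induction R with
    | nil => simp
    | cons x R ih =>
      clear * -
      have : ∀ R : List (ℕ × ℕ), (R.map fun x => f x + g x).sum =
          (R.map f).sum + (R.map g).sum := by
        intro R
        induction R with
        | nil => simp
        | cons x R ih => simp only [List.map_cons, List.sum_cons]; rw [ih]; ring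
      exact this _
  have hSle : (L.map fun x => x.2.1).sum ≤ A + Z := by
    refine hS.trans ?_
    rw [hAeq, hZ]
    unfold E0
    have e1 : ∑ v ∈ V, ((N v : ℝ) * ((a v : ℝ) + 1) ^ 2 + (N v : ℝ) * ((a v : ℝ) + 1) / 2) =
        ∑ v ∈ V, (N v : ℝ) * (a v * ((a v : ℝ) + 1)) +
          3 / 2 * ∑ v ∈ V, (N v : ℝ) * ((a v : ℝ) + 1) := by
      rw [Finset.mul_sum, ← Finset.sum_add_distrib]
      exact Finset.sum_congr rfl fun v _ => by ring
    have e2 : (R.map fun x => (x.1 : ℝ) * ((x.2 : ℝ) + 1) ^ 2).sum =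
        (R.map fun x => (x.1 : ℝ) * (x.2 * ((x.2 : ℝ) + 1))).sum +
          (R.map fun x => (x.1 : ℝ) * ((x.2 : ℝ) + 1)).sum := by
      rw [← list_add]
      exact congrArg List.sum (List.map_congr_left fun x _ => by ring)
    rw [e1, e2]
    linarith
  have hEge : A - Z ≤ (L.map fun x => x.2.2).sum := by
    refine le_trans ?_ hE
    rw [hAeq, hZ]
    unfold E0
    have e1 : ∑ v ∈ V, (N v : ℝ) * (a v * ((a v : ℝ) + 1)) -
        3 / 2 * ∑ v ∈ V, (N v : ℝ) * ((a v : ℝ) + 1) ≤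
        ∑ v ∈ V, ((N v : ℝ) * (a v : ℝ) ^ 2 - (N v : ℝ) * ((a v : ℝ) + 1) / 2) := by
      rw [Finset.mul_sum, ← Finset.sum_sub_distrib]
      refine Finset.sum_le_sum fun v _ => ?_
      have : 0 ≤ (N v : ℝ) := by positivity
      nlinarith
    have e2 : (R.map fun x => (x.1 : ℝ) * (x.2 * ((x.2 : ℝ) + 1))).sum ≤
        (R.map fun x => (x.1 : ℝ) * (x.2 : ℝ) ^ 2).sum +
          (R.map fun x => (x.1 : ℝ) * ((x.2 : ℝ) + 1)).sum := by
      rw [← list_add]
      refine list_sum_le R _ _ fun x _ => ?_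
      have : 0 ≤ (x.1 : ℝ) := by positivity
      nlinarith
    linarith
  -- the two tools
  have hh0 : 0 < h := by linarith
  have toolE : ∀ n : ℕ, d ≤ n → 2 * ((HX M1 M2 M3 n).card : ℝ) ≤ A - Z →
      EmpM M (↑(HX M1 M2 M3 n) : Set (ℤ × ℤ)) := by
    intro n hn hc
    have hnd : (d : ℝ) ≤ n := by exact_mod_cast hn
    have hw := (hW (h := h) (d := n) (M1 := M1) (M2 := M2) (M3 := M3) (by linarith) h32 h21
      (hd.trans hn) (by linarith)).2
    have := hw (L.map fun x => (x.1, x.2.2)) ?_ ?_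
    · rw [List.map_map] at this
      have e : (Prod.fst ∘ fun x : Multiset ℕ × ℝ × ℝ => (x.1, x.2.2)) = fun x => x.1 := rfl
      rw [e, hsum'] at this
      exact this
    · intro y hy
      obtain ⟨x, hx, rfl⟩ := List.mem_map.mp hy
      obtain ⟨-, h2, -, -, h5, h6⟩ := hL x hx
      exact ⟨h2, h5, h6⟩
    · rw [List.map_map]
      exact hc.trans hEge
  have toolS : ∀ n : ℕ, d ≤ n → A + Z + 14 * ((n : ℝ) - M1 + 2) ≤
      2 * ((HX M1 M2 M3 n).card : ℝ) → SurM M (↑(HX M1 M2 M3 n) : Set (ℤ × ℤ)) := by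
    intro n hn hc
    have hnd : (d : ℝ) ≤ n := by exact_mod_cast hn
    have hw := (hW (h := h) (d := n) (M1 := M1) (M2 := M2) (M3 := M3) (by linarith) h32 h21
      (hd.trans hn) (by linarith)).1
    have := hw (L.map fun x => (x.1, x.2.1)) ?_ ?_
    · rw [List.map_map] at this
      have e : (Prod.fst ∘ fun x : Multiset ℕ × ℝ × ℝ => (x.1, x.2.1)) = fun x => x.1 := rfl
      rw [e, hsum'] at this
      exact this
    · intro y hy
      obtain ⟨x, hx, rfl⟩ := List.mem_map.mp hy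
      obtain ⟨h2, -, h5, h6, -, -⟩ := hL x hx
      exact ⟨h2, h5, h6⟩
    · rw [List.map_map]
      refine le_trans hSle ?_
      linarith
  by_cases c1 : 2 * ((HX M1 M2 M3 d).card : ℝ) ≤ A - Z
  · left
    exact crkM_zero (toolE d le_rfl c1)
  right
  by_cases c2 : A + Z + 14 * ((d : ℝ) - M1 + 2) ≤ 2 * ((HX M1 M2 M3 d).card : ℝ)
  · left
    exact crkM_sur (toolS d le_rfl c2)
  right
  push Not at c1
  refine ⟨c1, ?_⟩
  -- a large degree which is good
  have hA0 : 0 ≤ A := by rw [hA]; positivity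
  have hM1d : (M1 : ℝ) ≤ d := by
    have : M1 ≤ d := by omega
    exact_mod_cast this
  have hex : ∃ n : ℕ, A + Z + 14 * (((d + n : ℕ) : ℝ) - M1 + 2) ≤
      2 * ((HX M1 M2 M3 (d + n)).card : ℝ) := by
    obtain ⟨n, hn⟩ := exists_nat_ge (A + Z + 28)
    refine ⟨n, ?_⟩
    refine le_trans ?_ (card_lower hC h32 h21 (hd.trans (Nat.le_add_right d n)))
    have e1 : ((d + n : ℕ) : ℝ) = (d : ℝ) + n := by push_cast; ring
    have e2 : 4160 * h ≤ ((d + n : ℕ) : ℝ) - M1 := by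
      rw [e1]; have : (0 : ℝ) ≤ n := by positivity
      linarith
    have e3 : (0 : ℝ) ≤ ((d + n : ℕ) : ℝ) := by positivity
    have e4 : ((d + n : ℕ) : ℝ) * 1000 ≤ ((d + n : ℕ) : ℝ) * (((d + n : ℕ) : ℝ) - M1) :=
      mul_le_mul_of_nonneg_left (by linarith) e3
    have e5 : (n : ℝ) ≤ ((d + n : ℕ) : ℝ) := by
      rw [e1]; have : (0 : ℝ) ≤ d := by positivity
      linarith
    have e6 : (0 : ℝ) ≤ M1 := by positivity
    nlinarith
  classical
  obtain ⟨n0, hn0, hmin⟩ : ∃ n0 : ℕ, (A + Z + 14 * (((d + n0 : ℕ) : ℝ) - M1 + 2) ≤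
      2 * ((HX M1 M2 M3 (d + n0)).card : ℝ)) ∧ ∀ m < n0, ¬ (A + Z + 14 * (((d + m : ℕ) : ℝ) - M1 + 2)
        ≤ 2 * ((HX M1 M2 M3 (d + m)).card : ℝ)) :=
    ⟨Nat.find hex, Nat.find_spec hex, fun m hm => Nat.find_min hex hm⟩
  have hn0pos : n0 ≠ 0 := by
    intro h0
    rw [h0] at hn0
    exact c2 (by simpa using hn0)
  obtain ⟨k, rfl⟩ := Nat.exists_eq_succ_of_ne_zero hn0pos
  have hk := hmin k (Nat.lt_succ_self k)
  push Not at hk
  set e : ℕ := d + k with he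
  have hde : d ≤ e := Nat.le_add_right d k
  have hdeR : (d : ℝ) ≤ e := by exact_mod_cast hde
  have hsur := toolS (e + 1) (by omega) hn0
  have h1 := crkM_sur hsur
  have h2 := crkM_mono (HX_mono (M1 := M1) (M2 := M2) (M3 := M3) (show d ≤ e + 1 by omega)) M
  have h3 : ((crkM (HX M1 M2 M3 d) M : ℕ) : ℝ) + (TH2.NU.condM M : ℝ) ≤
      ((HX M1 M2 M3 (e + 1)).card : ℝ) := by
    exact_mod_cast (Nat.add_le_add_right h2 _).trans h1
  have h4 := card_real hC h32 h21 (n := e) (hd.trans hde)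
  have h5 := card_real hC h32 h21 (n := e + 1) (by omega)
  have h6 := card_lower hC h32 h21 (n := e) (hd.trans hde)
  push_cast at h5
  have h7 : (e : ℝ) * (4160 * h - 14) ≤ A + Z + 28 := by
    have e1 : (e : ℝ) * (4160 * h) ≤ e * ((e : ℝ) - M1) :=
      mul_le_mul_of_nonneg_left (by linarith) (by positivity)
    have e2 : (0 : ℝ) ≤ M1 := by positivity
    nlinarith
  have h8 : 16 * ((e : ℝ) + 2) ≤ (A + Z) / (128 * h) + 33 := by
    have e1 : 16 * (e : ℝ) - 1 ≤ (A + Z) / (128 * h) := by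
      rw [le_div_iff₀ (by positivity)]
      have e3 : (0 : ℝ) ≤ e := by positivity
      nlinarith
    linarith
  have hcrk : 2 * ((crkM (HX M1 M2 M3 d) M : ℕ) : ℝ) ≤ Z + 16 * ((e : ℝ) + 2) := by
    have e2 : (0 : ℝ) ≤ M1 := by positivity
    nlinarith
  linarith

end Pool.Agent.Q111.WR
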