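import Pool.Agent.H200W.Stm4

/-! # Project WR of helper200: job NUM -/

set_option autoImplicit false

namespace Pool.Agent.Q111.WR

open Finset Pool.Agent.H200W Pool.Agent.TH2.NU Pool.Agent.Y205.FW Pool.Agent.Y205.MD

theorem condM_zero : TH2.NU.condM 0 = 0 := by
  unfold TH2.NU.condM; simp

theorem condM_replicate (n a : ℕ) : TH2.NU.condM (Multiset.replicate n a) = n * (a + 1).choose 2 := by
  unfold TH2.NU.condM
  rw [Multiset.map_replicate, Multiset.sum_replicate, smul_eq_mul]

theorem condM_sum (V : Finset ℕ) (f : ℕ → Multiset ℕ) :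
    TH2.NU.condM (∑ v ∈ V, f v) = ∑ v ∈ V, TH2.NU.condM (f v) := by
  classical
  induction V using Finset.induction_on with
  | empty => simp [condM_zero]
  | insert a s ha ih => rw [Finset.sum_insert ha, Finset.sum_insert ha, condM_add, ih]

theorem condM_list (R : List (ℕ × ℕ)) :
    TH2.NU.condM (R.map fun x => Multiset.replicate x.1 x.2).sum =
      (R.map fun x => x.1 * (x.2 + 1).choose 2).sum := by
  induction R with
  | nil => simp [condM_zero]
  | cons x R ih =>
    simp only [List.map_cons, List.sum_cons]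
    rw [condM_add, ih, condM_replicate]

theorem condM_lf (V : Finset ℕ) (N a : ℕ → ℕ) (R : List (ℕ × ℕ)) :
    TH2.NU.condM (lf V N a R) = ∑ v ∈ V, N v * (a v + 1).choose 2 +
      (R.map fun x => x.1 * (x.2 + 1).choose 2).sum := by
  unfold lf
  rw [condM_add, condM_sum, condM_list]
  exact congrArg (· + _) (Finset.sum_congr rfl fun v _ => condM_replicate _ _)

theorem crkM_le_card (S : Finset (ℤ × ℤ)) (M : Multiset ℕ) : crkM S M ≤ S.card := by
  unfold crkM
  exact crk_le ⟨∅, Finset.empty_subset _, by simp, Emp_nil _⟩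

/-- sums over lists -/
theorem list_sum_le {α : Type*} (L : List α) (f g : α → ℝ) (h : ∀ x ∈ L, f x ≤ g x) :
    (L.map f).sum ≤ (L.map g).sum := List.sum_le_sum h

theorem list_cast {α : Type*} (L : List α) (f : α → ℕ) :
    (((L.map f).sum : ℕ) : ℝ) = (L.map fun x => (f x : ℝ)).sum := by
  induction L with
  | nil => simp
  | cons x L ih => simp only [List.map_cons, List.sum_cons]; rw [Nat.cast_add, ih]

theorem list_mul {α : Type*} (L : List α) (c : ℝ) (f : α → ℝ) :
    (L.map fun x => c * f x).sum = c * (L.map f).sum := by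
  induction L with
  | nil => simp
  | cons x L ih => simp only [List.map_cons, List.sum_cons]; rw [ih]; ring

theorem list_const {α : Type*} (L : List α) (c : ℝ) :
    (L.map fun _ => c).sum = c * L.length := by
  induction L with
  | nil => simp
  | cons x L ih => simp only [List.map_cons, List.sum_cons, List.length_cons]; rw [ih]; push_cast; ring

theorem num : S_Num := by
  intro hleaf h d M1 M2 M3 μ V N R hμ hh h32 h21 hd hdM hV hR hbig a g0 g1 hL
  rcases V.eq_empty_or_nonempty with rfl | hne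
  · -- no classes
    have hR0 : R.length = 0 := by
      by_contra hne
      have h1 : (1 : ℝ) ≤ R.length := by exact_mod_cast Nat.one_le_iff_ne_zero.mpr hne
      have h2 : (0 : ℝ) < h := by rw [hh]; positivity
      simp only [Finset.card_empty, Nat.cast_zero, add_zero, Finset.sum_empty] at hbig
      have : 0 < 257 * h ^ 2 * (R.length : ℝ) := by positivity
      linarith
    have hR1 : R = [] := List.length_eq_zero_iff.mp hR0
    subst hR1
    have h3 : TH2.NU.condM (lf ∅ (fun v => 256 * N v) (fun v => v) []) = 0 := by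
      rw [condM_lf]; simp
    rw [h3]
    simpa using crkM_le_card _ _
  -- real numbers
  have hμ' : (1 : ℝ) ≤ μ := by exact_mod_cast hμ
  have hh512 : 512 ≤ h := by rw [hh]; linarith
  have hh0 : 0 < h := by linarith
  have hlo : ∀ v ∈ V, 16 * (v : ℝ) ≤ a v := by
    intro v hv
    have := (hL v hv).lo
    have h2 : 16 * v ≤ a v := by simpa using this
    exact_mod_cast h2
  have hhi : ∀ v ∈ V, (a v : ℝ) + 1 ≤ 16 * (v + 1) := by
    intro v hv
    have := (hL v hv).hi
    have h2 : a v + 1 ≤ 16 * (v + 1) := by simpa using this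
    exact_mod_cast h2
  have hv1 : ∀ v ∈ V, (1 : ℝ) ≤ v := fun v hv => by exact_mod_cast (hV v hv).1
  have hvμ : ∀ v ∈ V, (v : ℝ) ≤ μ := fun v hv => by exact_mod_cast (hV v hv).2.1
  have hN1 : ∀ v ∈ V, (1 : ℝ) ≤ N v := fun v hv => by exact_mod_cast (hV v hv).2.2.1
  have hah : ∀ v ∈ V, 16 * ((a v : ℝ) + 1) ≤ h := by
    intro v hv
    have := hhi v hv
    have := hvμ v hv
    rw [hh]; linarith
  have hRl : ∀ x ∈ R, 16 * ((x.2 : ℝ) + 1) ≤ h := by
    intro x hx
    have : (x.2 : ℝ) ≤ μ := by exact_mod_cast (hR x hx).2.2.1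
    rw [hh]; linarith
  have hbig' : 257 * h ^ 2 * ((R.length : ℝ) + V.card) ≤ ∑ v ∈ V, (N v : ℝ) * (a v : ℝ) ^ 2 := by
    refine hbig.trans (Finset.sum_le_sum fun v hv => ?_)
    have e1 := hlo v hv
    have e2 := hv1 v hv
    have e3 := hN1 v hv
    have e4 : (16 * (v : ℝ)) ^ 2 ≤ (a v : ℝ) ^ 2 := by
      apply pow_le_pow_left₀ (by positivity) e1
    have e5 : (256 * N v : ℝ) * (v : ℝ) ^ 2 = N v * (16 * (v : ℝ)) ^ 2 := by ring
    rw [e5]
    exact mul_le_mul_of_nonneg_left e4 (by positivity)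
  have key := hleaf (h := h) (d := d) (M1 := M1) (M2 := M2) (M3 := M3) V N a R (by linarith) h32 h21
    hd hdM ?_ ?_ hbig'
  rotate_left
  · intro v hv
    refine ⟨(hV v hv).2.2.1, ?_, hah v hv, ?_⟩
    · have e1 := hlo v hv
      have e2 := hv1 v hv
      have : (16 : ℝ) ≤ a v := by linarith
      exact_mod_cast this
    · refine (hV v hv).2.2.2.trans ?_
      exact mul_le_mul_of_nonneg_left (hlo v hv) (by positivity)
  · intro x hx
    exact ⟨(hR x hx).1, (hR x hx).2.1, hRl x hx, (hR x hx).2.2.2⟩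
  -- the account of the conditions
  set cL := TH2.NU.condM (lf V N a R) with hcL
  set cW := TH2.NU.condM (lf V (fun v => 256 * N v) (fun v => v) R) with hcW
  set G0 := ∑ v ∈ V, g0 v with hG0
  set G1 := ∑ v ∈ V, g1 v with hG1
  set X := (HX M1 M2 M3 d).card with hX
  set c := crkM (HX M1 M2 M3 d) (lf V N a R) with hc
  have hcd : cL + G0 = cW + G1 := by
    rw [hcL, hcW, condM_lf, condM_lf, hG0, hG1]
    have : ∑ v ∈ V, N v * (a v + 1).choose 2 + ∑ v ∈ V, g0 v =
        ∑ v ∈ V, 256 * N v * (v + 1).choose 2 + ∑ v ∈ V, g1 v := by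
      rw [← Finset.sum_add_distrib, ← Finset.sum_add_distrib]
      refine Finset.sum_congr rfl fun v hv => ?_
      have := (hL v hv).cd
      simpa using this
    omega
  rcases key with k1 | k1 | ⟨k1, k2⟩
  · rw [k1]; exact Nat.zero_le _
  · omega
  -- the third case
  set W : ℝ := ∑ v ∈ V, 256 * (N v : ℝ) * v with hW
  set P : ℝ := ∑ v ∈ V, (N v : ℝ) * ((a v : ℝ) + 1) with hP
  set Q : ℝ := (R.map fun x => (x.1 : ℝ) * ((x.2 : ℝ) + 1)).sum with hQ
  have hE0 : E0 V N a R = 3 / 2 * P + Q := rfl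
  have hP0 : 0 ≤ P := Finset.sum_nonneg fun v _ => by positivity
  have hQ0 : 0 ≤ Q := List.sum_nonneg (by
    intro y hy
    obtain ⟨x, _, rfl⟩ := List.mem_map.mp hy
    positivity)
  have hPW : 8 * P ≤ W := by
    rw [hP, hW, Finset.mul_sum]
    refine Finset.sum_le_sum fun v hv => ?_
    have e1 := hhi v hv
    have e2 := hv1 v hv
    have e3 := hN1 v hv
    nlinarith
  have hgain : 15 * W ≤ 32 * ((G0 : ℝ) + G1) := by
    have e1 : ∀ v ∈ V, 15 * (256 * (N v : ℝ) * v) ≤ 32 * ((g0 v : ℝ) + g1 v) := by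
      intro v hv
      have e2 := (hL v hv).gain
      have e3 : ((N v * v * 256 : ℕ) : ℝ) ≤ ((2 * (g0 v + g1 v) + N v * v * 16 : ℕ) : ℝ) := by
        exact_mod_cast (by simpa using e2)
      push_cast at e3
      nlinarith
    have e4 := Finset.sum_le_sum e1
    rw [← Finset.mul_sum, ← Finset.mul_sum, Finset.sum_add_distrib] at e4
    rw [hG0, hG1]
    push_cast
    exact e4
  set T : ℝ := (R.length : ℝ) + V.card with hT
  have hVc : (1 : ℝ) ≤ V.card := by exact_mod_cast hne.card_pos
  have hRc : (0 : ℝ) ≤ R.length := by positivity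
  have hWbig : 257 * 256 * h * T ≤ W := by
    -- `μ W ≥ ∑ 256 N v ^ 2 ≥ 257 h ^ 2 T`, and `h ≥ 256 μ`
    have e1 : ∑ v ∈ V, (256 * N v : ℝ) * (v : ℝ) ^ 2 ≤ μ * W := by
      rw [hW, Finset.mul_sum]
      refine Finset.sum_le_sum fun v hv => ?_
      have e2 := hvμ v hv
      have e3 := hv1 v hv
      have e4 : (v : ℝ) ^ 2 ≤ μ * v := by nlinarith
      calc (256 * N v : ℝ) * (v : ℝ) ^ 2 ≤ (256 * N v : ℝ) * (μ * v) :=
            mul_le_mul_of_nonneg_left e4 (by positivity)
        _ = _ := by ring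
    have e5 : 257 * h ^ 2 * T ≤ μ * W := hbig.trans e1
    have e6 : 256 * (μ : ℝ) ≤ h := by rw [hh]; linarith
    have hT0 : 0 ≤ T := by positivity
    have e7 : 256 * (μ : ℝ) * (257 * h * T) ≤ h * (257 * h * T) :=
      mul_le_mul_of_nonneg_right e6 (by positivity)
    have e8 : (μ : ℝ) * (257 * 256 * h * T) ≤ μ * W := by
      calc (μ : ℝ) * (257 * 256 * h * T) = 256 * (μ : ℝ) * (257 * h * T) := by ring
        _ ≤ h * (257 * h * T) := e7
        _ = 257 * h ^ 2 * T := by ring
        _ ≤ μ * W := e5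
    exact le_of_mul_le_mul_left e8 (by linarith)
  have hQW : 257 * Q ≤ W := by
    have e1 : Q ≤ 256 * h * R.length := by
      rw [hQ, ← list_const]
      refine list_sum_le R _ _ fun x hx => ?_
      have := (hR x hx).2.2.2
      exact this
    have e2 : 257 * 256 * h * R.length ≤ 257 * 256 * h * T := by
      apply mul_le_mul_of_nonneg_left _ (by positivity)
      rw [hT]; linarith
    nlinarith
  have h33 : 33000 ≤ W := by
    have e1 : (1 : ℝ) ≤ T := by rw [hT]; linarith
    have e2 : 257 * 256 * 512 * 1 ≤ 257 * 256 * h * T := by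
      have : 257 * 256 * 512 ≤ 257 * 256 * h := by linarith
      nlinarith
    linarith
  have hcLreal : 2 * (cL : ℝ) ≤ h / 16 * (P + Q) := by
    rw [hcL, condM_lf, Nat.cast_add, list_cast, Nat.cast_sum, mul_add, mul_add]
    refine add_le_add ?_ ?_
    · rw [hP, Finset.mul_sum, Finset.mul_sum]
      refine Finset.sum_le_sum fun v hv => ?_
      rw [Nat.cast_mul, choose_real]
      have e1 := hah v hv
      have e3 := hN1 v hv
      have e4 : (a v : ℝ) ≤ h / 16 := by linarith
      have e5 : 0 ≤ (N v : ℝ) * ((a v : ℝ) + 1) := by positivity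
      nlinarith
    · rw [hQ, ← list_mul, ← list_mul]
      refine list_sum_le R _ _ fun x hx => ?_
      rw [Nat.cast_mul, choose_real]
      have e1 := hRl x hx
      have e4 : (x.2 : ℝ) ≤ h / 16 := by linarith
      have e5 : 0 ≤ (x.1 : ℝ) * ((x.2 : ℝ) + 1) := by positivity
      nlinarith
  rw [hE0] at k1 k2
  have hfrac : (2 * (cL : ℝ) + (3 / 2 * P + Q)) / (128 * h) ≤ (P + Q) / 1000 := by
    rw [div_le_div_iff₀ (by positivity) (by norm_num)]
    have e1 : 512 * (P + Q) ≤ h * (P + Q) := mul_le_mul_of_nonneg_right hh512 (by linarith)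
    nlinarith
  have hE' : 3 / 2 * P + Q + (P + Q) / 1000 + 33 ≤ W / 5 := by
    linarith
  have k2' : 2 * (c : ℝ) ≤ W / 5 := by linarith
  have hcd' : (cL : ℝ) + G0 = cW + G1 := by exact_mod_cast hcd
  have hE0' : 3 / 2 * P + Q ≤ W / 5 := by
    have : 0 ≤ (P + Q) / 1000 := by positivity
    linarith
  by_cases hG : 2 * (c : ℝ) ≤ 2 * G0
  · have : c ≤ G0 := by
      have : (c : ℝ) ≤ G0 := by linarith
      exact_mod_cast this
    omega
  · push Not at hG
    -- `2 G0 < W / 5`
    have e1 : 2 * (G0 : ℝ) < W / 5 := by linarith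
    have e2 : (c : ℝ) + cW < X + G0 + 0 := by linarith
    have e3 : c + cW < X + G0 := by exact_mod_cast (by linarith : (c : ℝ) + cW < X + G0)
    omega

end Pool.Agent.Q111.WR
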